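import Pool.Agent.Q287.CD5

/-! Greedy path, leaf depth and height in the critical beta-splitting tree (MP_ce738d_pr, Q1, Q2).

`dtcs n` is the law of `DTCS(n)` on rooted binary trees, `Ex n F` the expectation of `F` under it;
`eL n = E L_n`, `eH n = E L*_n`, `eG n = E L⁺_n`.  Both `E L⁺_n - E L_n` and `E L*_n - E L⁺_n` are of
order `log² n`. -/

namespace Pool.Agent.Results.MP_ce738d_pr.PathOrders

open Pool.Agent.Q287.CD Filter

theorem result :
    -- Q1
    (∃ c C : ℝ, 0 < c ∧ ∀ᶠ n : ℕ in atTop,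
      c * Real.log n ^ 2 ≤ eG n - eL n ∧ eG n - eL n ≤ C * Real.log n ^ 2) ∧
    -- Q2
    (∃ c C : ℝ, 0 < c ∧ ∀ᶠ n : ℕ in atTop,
      c * Real.log n ^ 2 ≤ eH n - eG n ∧ eH n - eG n ≤ C * Real.log n ^ 2) ∧
    -- the greedy path alone has mean length at least `(9/20) log² n`
    (∀ᶠ n : ℕ in atTop, 9 / 20 * Real.log n ^ 2 ≤ eG n) := orders

end Pool.Agent.Results.MP_ce738d_pr.PathOrders
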